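import Pool.Agent.Lib.MP_4e5fcd_ag.CX.E5

/-!
# The motivic monodromy conjecture: every ideal is modelled by bilinear forms and by a trilinear form

The definitions of the statement are in `Pool/Agent/Lib/MP_4e5fcd_ag/Defs.lean` (`K0`, `cls`, `Zmot`,
`IsPole`, `ConePoint`, `contactArcs`, `MC`, `Lu`), `Pool/Agent/Lib/MP_4e5fcd_ag/LF/Defs.lean`
(`IsEulerCharF`), `Pool/Agent/Lib/MP_4e5fcd_ag/CN/Defs.lean` (`germ`),
`Pool/Agent/Lib/MP_4e5fcd_ag/CB/Defs.lean` (`MonodromyProperty`, `ZeroOrPoleNear`) and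
`Pool/Agent/Lib/MP_4e5fcd_ag/CX/Defs.lean` (`IsBilinear`, `triForm`, `pnt`, `Alike`).
-/

open MvPolynomial MotMono

namespace Pool.Agent.Results.MP_4e5fcd_ag.TrilinearForms

/-- (1) For all polynomials `f_1, …, f_R` which vanish at the origin there are bilinear forms `B_k`
with at most three terms, a common zero `c` of them and an integer `m` such that the ideal
`(f_1, …, f_R)` and the ideal `(B_1, …, B_r)` at the point `c` have the same poles `s₀ ∉ ℤ`, up to the
shift by `m`, and the same zeros and poles `exp (2πi s₀) ≠ 1` of their monodromy zeta functions near the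
origin; the trilinear form `T = ∑ z_k B_k` at `(c, 0)` has the same zeros and poles, and the poles of
`(L - 1) Zmot`; and every form `∑ z_j f_j` at a point `(0, C)` is modelled in the same sense by the
same trilinear form `T` at some point `(c, C')`. The other parts follow from this:
(2) Every hypersurface germ is modelled by such a trilinear form `T` at some point `(c, C)`.
(3) For every ideal there are one such trilinear form `T` and finitely many of its zeros `(c, C_j)`
such that every pole `s₀ ∉ ℤ` of the ideal gives the pole `s₀ / d - m` of `T` at one of them, and every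
zero or pole `exp (2πi s₀ / d)` of `T` near one of them gives `exp (2πi s₀)` for the ideal.
(4) The statement of the monodromy conjecture (`s₀ ∉ ℤ`) for all ideals is equivalent to its case of
ideals of bilinear forms with at most three terms, at points, and to its case of trilinear forms
`∑ z_k B_k`, the `B_k` with at most three terms, at points. -/
theorem result :
    (∀ (N R : ℕ) (f : Fin R → MvPolynomial (Fin N) ℂ), (∀ j, eval 0 (f j) = 0) →
      ∃ (n r : ℕ) (B : Fin r → MvPolynomial (Fin n) ℂ) (c : Fin n → ℂ) (m : ℕ),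
        IsBilinear B ∧ (∀ k, (B k).support.card ≤ 3) ∧ (∀ k, eval c (B k) = 0) ∧
        Alike 1 (Ideal.span (Set.range f)) (germ (Ideal.span (Set.range B)) c) m ∧
        Alike (((Lu : MCˣ) : MC) - 1) (Ideal.span (Set.range f))
          (germ (Ideal.span {triForm B}) (pnt c 0)) m ∧
        ∀ C : Fin R → ℂ, ∃ C' : Fin r → ℂ,
          Alike 1 (germ (Ideal.span {triForm f}) (pnt 0 C))
            (germ (Ideal.span {triForm B}) (pnt c C')) m) ∧
    (∀ (N : ℕ) (F : MvPolynomial (Fin N) ℂ), eval 0 F = 0 →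
      ∃ (n r : ℕ) (B : Fin r → MvPolynomial (Fin n) ℂ) (c : Fin n → ℂ) (C : Fin r → ℂ) (m : ℕ),
        IsBilinear B ∧ (∀ k, (B k).support.card ≤ 3) ∧ (∀ k, eval c (B k) = 0) ∧
        Alike 1 (Ideal.span {F}) (germ (Ideal.span {triForm B}) (pnt c C)) m) ∧
    (∀ (N : ℕ) (I : Ideal (MvPolynomial (Fin N) ℂ)), (∀ f ∈ I, eval 0 f = 0) →
      ∃ (d n r : ℕ) (B : Fin r → MvPolynomial (Fin n) ℂ) (c : Fin n → ℂ) (m K : ℕ)
        (C : Fin K → Fin r → ℂ), 0 < d ∧ IsBilinear B ∧ (∀ k, (B k).support.card ≤ 3) ∧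
        (∀ k, eval c (B k) = 0) ∧
        ∀ s₀ : ℚ, (∀ z : ℤ, s₀ ≠ z) →
          (IsPole (Zmot I) s₀ →
            ∃ j, IsPole (Zmot (germ (Ideal.span {triForm B}) (pnt c (C j)))) (s₀ / d - m)) ∧
          ∀ χ : K0 →+* ℤ, IsEulerCharF χ → ∀ j,
            ZeroOrPoleNear χ (germ (Ideal.span {triForm B}) (pnt c (C j)))
                (Complex.exp (2 * Real.pi * Complex.I * (s₀ / d : ℚ))) →
              ZeroOrPoleNear χ I (Complex.exp (2 * Real.pi * Complex.I * s₀))) ∧
    ∀ χ : K0 →+* ℤ, IsEulerCharF χ →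
      ((∀ (N : ℕ) (I : Ideal (MvPolynomial (Fin N) ℂ)), (∀ f ∈ I, eval 0 f = 0) →
          MonodromyProperty χ I) ↔
        ∀ (n r : ℕ) (B : Fin r → MvPolynomial (Fin n) ℂ), IsBilinear B →
          (∀ k, (B k).support.card ≤ 3) → ∀ c : Fin n → ℂ, (∀ k, eval c (B k) = 0) →
            MonodromyProperty χ (germ (Ideal.span (Set.range B)) c)) ∧
      ((∀ (N : ℕ) (I : Ideal (MvPolynomial (Fin N) ℂ)), (∀ f ∈ I, eval 0 f = 0) →
          MonodromyProperty χ I) ↔
        ∀ (n r : ℕ) (B : Fin r → MvPolynomial (Fin n) ℂ), IsBilinear B →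
          (∀ k, (B k).support.card ≤ 3) → ∀ p : Fin (n + 1 * r) → ℂ, eval p (triForm B) = 0 →
            MonodromyProperty χ (germ (Ideal.span {triForm B}) p)) :=
  ⟨CX.tuple_model, CX.hypersurface_model, fun _ I h0 => CX.one_form I h0,
    fun _ hχ => ⟨CX.iff_bilinear hχ, CX.iff_tri hχ⟩⟩

/-- Alike ideals: the property of the monodromy conjecture (`s₀ ∉ ℤ`) of one is the one of the other. -/
theorem property_iff {χ : K0 →+* ℤ} (hχ : IsEulerCharF χ) {n k : ℕ}
    {I : Ideal (MvPolynomial (Fin n) ℂ)} {J : Ideal (MvPolynomial (Fin k) ℂ)} {m : ℕ}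
    (h : Alike 1 I J m) : MonodromyProperty χ I ↔ MonodromyProperty χ J :=
  CX.mp_iff_of_alike hχ h

/-- In particular the property of the ideal `(f_1, …, f_R)` implies the one of the trilinear form `T` of
(1) at `(c, 0)`. -/
theorem property_of {χ : K0 →+* ℤ} (hχ : IsEulerCharF χ) {n k : ℕ} {a : MC}
    {I : Ideal (MvPolynomial (Fin n) ℂ)} {J : Ideal (MvPolynomial (Fin k) ℂ)} {m : ℕ}
    (h : Alike a I J m) (hI : MonodromyProperty χ I) : MonodromyProperty χ J :=
  CX.mp_of_alike hχ h hI

/-- The ideals `I` and `(I, z)`, `z` a new variable, are alike, with the shift `1`. -/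
theorem new_variable {N : ℕ} (I : Ideal (MvPolynomial (Fin N) ℂ)) : Alike 1 I (adjVar I) 1 :=
  CX.alike_of_simA (CX.simA_adj I)

end Pool.Agent.Results.MP_4e5fcd_ag.TrilinearForms
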